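import Pool.Agent.H81.W.Interface

set_option autoImplicit false

/-!
# Module B: from the Lyapunov data to the frozen statement S05171
-/

namespace Pool.Agent.H76.W

open Pool.Agent.H81.W Set Metric Filter Topology
open scoped BigOperators

/-! ### Rotations, conjugation, integration operators -/

/-- Rotation of a sequence. -/
noncomputable def Rot (ζ : ℂ) (s : ℕ → ℂ) : ℕ → ℂ := fun k => ζ ^ k * s k

/-- Conjugate sequence. -/
noncomputable def Cj (s : ℕ → ℂ) : ℕ → ℂ := fun k => (starRingEnd ℂ) (s k)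

/-- The integration operator from `w`, in Taylor coordinates at `0`. -/
noncomputable def Iw (w : ℂ) (h : ℕ → ℂ) : ℕ → ℂ
  | 0 => -∑' j : ℕ, h j * w ^ (j + 1) / (Nat.factorial (j + 1) : ℂ)
  | (k + 1) => h k

theorem bdd_rot {ζ : ℂ} (hζ : ‖ζ‖ = 1) {s : ℕ → ℂ} (hs : Bdd s) : Bdd (Rot ζ s) := by
  obtain ⟨M, hM⟩ := hs
  refine ⟨M, fun k => ?_⟩
  simp only [Rot, norm_mul, norm_pow, hζ, one_pow, one_mul]
  exact hM k

theorem bdd_cj {s : ℕ → ℂ} (hs : Bdd s) : Bdd (Cj s) := by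
  obtain ⟨M, hM⟩ := hs
  refine ⟨M, fun k => ?_⟩
  simp only [Cj, RCLike.norm_conj]
  exact hM k

theorem bdd_Iw (w : ℂ) {s : ℕ → ℂ} (hs : Bdd s) : Bdd (Iw w s) := by
  obtain ⟨M, hM⟩ := hs
  refine ⟨max M ‖Iw w s 0‖, fun k => ?_⟩
  cases k with
  | zero => exact le_max_right _ _
  | succ k => exact (hM k).trans (le_max_left _ _)

theorem bdd_Bop {ζ : ℂ} (hζ : ‖ζ‖ = 1) {s : ℕ → ℂ} (hs : Bdd s) : Bdd (Bop ζ s) := by
  obtain ⟨M, hM⟩ := hs
  refine ⟨max M ‖Bop ζ s 0‖, fun k => ?_⟩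
  cases k with
  | zero => exact le_max_right _ _
  | succ k =>
    simp only [Bop, norm_mul, norm_pow, hζ, one_pow, one_mul]
    exact (hM k).trans (le_max_left _ _)

theorem cj_cj (s : ℕ → ℂ) : Cj (Cj s) = s := by
  funext k; simp [Cj]

theorem cj_rot (ζ : ℂ) (s : ℕ → ℂ) : Cj (Rot ζ s) = Rot ((starRingEnd ℂ) ζ) (Cj s) := by
  funext k; simp [Cj, Rot]

theorem cj_Iw (w : ℂ) (s : ℕ → ℂ) : Cj (Iw w s) = Iw ((starRingEnd ℂ) w) (Cj s) := by
  funext k
  cases k with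
  | zero =>
    simp only [Cj, Iw, map_neg, Complex.conj_tsum, map_div₀, map_mul, map_pow, map_natCast]
  | succ k => simp [Cj, Iw]

theorem rot_Iw {w : ℂ} (hw : ‖w‖ = 1) (ζ : ℂ) (h : ℕ → ℂ) :
    Rot ζ (Iw w h) = fun k => w * Bop (ζ / w) (Rot w h) k := by
  have hw0 : w ≠ 0 := by
    intro h0; rw [h0, norm_zero] at hw; exact zero_ne_one hw
  funext k
  cases k with
  | zero =>
    simp only [Rot, Iw, Bop, pow_zero, one_mul, mul_neg, neg_inj]
    rw [← tsum_mul_left]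
    congr 1
    funext j
    ring
  | succ k =>
    simp only [Rot, Iw, Bop, div_pow]
    field_simp
    ring

/-- Energies of all rotations bounded by `A`. -/
def En (N : (ℕ → ℂ) → ℝ) (h : ℕ → ℂ) (A : ℝ) : Prop :=
  ∀ ζ : ℂ, ‖ζ‖ = 1 → N (Rot ζ h) ≤ A ∧ N (Rot ζ (Cj h)) ≤ A

theorem En.cj {N : (ℕ → ℂ) → ℝ} {h : ℕ → ℂ} {A : ℝ} (H : En N h A) : En N (Cj h) A := by
  intro ζ hζ
  rw [cj_cj]
  exact ⟨(H ζ hζ).2, (H ζ hζ).1⟩

section step

variable {z q : ℂ} {N : (ℕ → ℂ) → ℝ}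

theorem step_unit (D : LyapData z q N) {w : ℂ} (hw : ‖w‖ = 1) {h : ℕ → ℂ} (hh : Bdd h)
    {A : ℝ} (H : En N h A) {ζ : ℂ} (hζ : ‖ζ‖ = 1) :
    ‖z‖ ^ 2 * N (Rot ζ (Iw w h)) ≤ A := by
  have h1 : ‖ζ / w‖ = 1 := by rw [norm_div, hζ, hw, div_one]
  have hb : Bdd (Bop (ζ / w) (Rot w h)) := bdd_Bop h1 (bdd_rot hw hh)
  rw [rot_Iw hw, D.smul w _ hb, hw, one_pow, one_mul]
  refine (D.step (ζ / w) h1 (Rot w h) (bdd_rot hw hh)).trans (max_le (H w hw).1 ?_)
  have h2 : (fun k => (starRingEnd ℂ) (Rot w h k)) = Rot ((starRingEnd ℂ) w) (Cj h) :=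
    cj_rot w h
  rw [h2]
  exact (H _ (by rw [RCLike.norm_conj, hw])).2

theorem entire_tsum {h : ℕ → ℂ} (hh : Bdd h) :
    Differentiable ℂ (fun w : ℂ => ∑' j : ℕ, h j * w ^ (j + 1) / (Nat.factorial (j + 1) : ℂ)) := by
  obtain ⟨M, hM⟩ := hh
  intro w₀
  set R : ℝ := ‖w₀‖ + 1 with hR
  have hR0 : 0 ≤ R := by positivity
  have hM0 : 0 ≤ M := (norm_nonneg _).trans (hM 0)
  have hsum : Summable (fun j : ℕ => M * (R ^ (j + 1) / (Nat.factorial (j + 1) : ℝ))) :=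
    ((summable_nat_add_iff 1).2 (Real.summable_pow_div_factorial R)).mul_left M
  have hd : DifferentiableOn ℂ
      (fun w : ℂ => ∑' j : ℕ, h j * w ^ (j + 1) / (Nat.factorial (j + 1) : ℂ)) (ball 0 R) := by
    refine Complex.differentiableOn_tsum_of_summable_norm hsum ?_ isOpen_ball ?_
    · intro j
      fun_prop
    · intro j w hw
      rw [mem_ball_zero_iff] at hw
      rw [norm_div, norm_mul, norm_pow, mul_div_assoc, Complex.norm_natCast]
      gcongr
      exact hM j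
  exact hd.differentiableAt (isOpen_ball.mem_nhds (by rw [mem_ball_zero_iff, hR]; linarith))

theorem quad_pos (D : LyapData z q N) :
    ∃ a : ℝ, 0 < a ∧ ∀ s : ℕ → ℂ, Bdd s → ∃ b : ℂ, ∀ x : ℂ,
      N (Function.update s 0 (s 0 + x)) = N s + 2 * (b * x).re + a * ‖x‖ ^ 2 := by
  obtain ⟨a, ha, hq⟩ := D.quad
  refine ⟨a, ?_, hq⟩
  obtain ⟨c₀, hc₀, hlow⟩ := D.lower
  set e : ℕ → ℂ := Function.update (fun _ => (0 : ℂ)) 0 1 with he
  have hebd : Bdd e := by
    refine ⟨1, fun k => ?_⟩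
    rw [he]
    cases k with
    | zero => simp
    | succ k => simp
  have h0bd : Bdd (fun _ => (0 : ℂ)) := ⟨0, fun k => by simp⟩
  obtain ⟨b, hb⟩ := hq _ h0bd
  have hN0 : N (fun _ => (0 : ℂ)) = 0 := by
    have := D.smul 0 _ h0bd
    simpa using this
  have h1 := hb 1
  have h2 := hb (-1)
  rw [hN0] at h1 h2
  simp only [zero_add, mul_one, norm_one, one_pow, mul_neg, Complex.neg_re, norm_neg] at h1 h2
  have h3 : N (fun k => (-1 : ℂ) * e k) = N e := by
    rw [D.smul (-1) e hebd]; simp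
  have h4 : (fun k => (-1 : ℂ) * e k) = Function.update (fun _ => (0 : ℂ)) 0 (-1) := by
    funext k
    cases k with
    | zero => simp [he]
    | succ k => simp [he]
  rw [h4] at h3
  have h5 := hlow e hebd
  have h6 : e 0 = 1 := by simp [he]
  rw [h6, norm_one, one_pow, mul_one] at h5
  rw [he] at h5 h3
  linarith

theorem step_disc (D : LyapData z q N) {w : ℂ} (hw : ‖w‖ ≤ 1) {h : ℕ → ℂ} (hh : Bdd h)
    {A : ℝ} (H : En N h A) {ζ : ℂ} (hζ : ‖ζ‖ = 1) :
    ‖z‖ ^ 2 * N (Rot ζ (Iw w h)) ≤ A := by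
  obtain ⟨a, ha, hq⟩ := quad_pos D
  set s : ℕ → ℂ := Rot ζ (Iw 0 h) with hs
  have hsb : Bdd s := bdd_rot hζ (bdd_Iw 0 hh)
  have hs0 : s 0 = 0 := by
    simp [hs, Rot, Iw]
  obtain ⟨b, hb⟩ := hq s hsb
  set X : ℂ → ℂ := fun w => -∑' j : ℕ, h j * w ^ (j + 1) / (Nat.factorial (j + 1) : ℂ) with hX
  have hXd : Differentiable ℂ X := (entire_tsum hh).neg
  have hrepr : ∀ v : ℂ, Rot ζ (Iw v h) = Function.update s 0 (s 0 + X v) := by
    intro v
    funext k
    cases k with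
    | zero => simp [hs0, Rot, Iw, hX]
    | succ k => simp [hs, Rot, Iw]
  set g : ℂ → ℂ := fun v => X v + (starRingEnd ℂ) b / (a : ℂ) with hg
  have hgd : Differentiable ℂ g := hXd.add_const _
  have hval : ∀ v : ℂ, N (Rot ζ (Iw v h)) = N s - ‖b‖ ^ 2 / a + a * ‖g v‖ ^ 2 := by
    intro v
    rw [hrepr v, hb (X v)]
    have h1 : ‖g v‖ ^ 2 = ‖X v‖ ^ 2 + 2 * (b * X v).re / a + ‖b‖ ^ 2 / a ^ 2 := by
      rw [hg]
      simp only [← Complex.normSq_eq_norm_sq]
      rw [Complex.normSq_apply, Complex.normSq_apply, Complex.normSq_apply]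
      have e1 : ((starRingEnd ℂ) b / (a : ℂ)).re = b.re / a := by
        rw [Complex.div_ofReal_re, Complex.conj_re]
      have e2 : ((starRingEnd ℂ) b / (a : ℂ)).im = -b.im / a := by
        rw [Complex.div_ofReal_im, Complex.conj_im]
      rw [Complex.add_re, Complex.add_im, e1, e2, Complex.mul_re]
      field_simp
      ring
    rw [h1]
    field_simp
    ring
  obtain ⟨v, hv, hmax⟩ := Complex.exists_mem_frontier_isMaxOn_norm (U := ball (0 : ℂ) 1)
    isBounded_ball ⟨0, by simp⟩ hgd.diffContOnCl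
  rw [frontier_ball (0 : ℂ) one_ne_zero, mem_sphere_zero_iff_norm] at hv
  have hwle : ‖g w‖ ≤ ‖g v‖ := by
    have : w ∈ closure (ball (0 : ℂ) 1) := by
      rw [closure_ball (0 : ℂ) one_ne_zero, mem_closedBall_zero_iff]; exact hw
    exact hmax this
  have h1 := step_unit D hv hh H hζ
  have h2 : N (Rot ζ (Iw w h)) ≤ N (Rot ζ (Iw v h)) := by
    rw [hval w, hval v]
    gcongr
  exact (mul_le_mul_of_nonneg_left h2 (by positivity)).trans h1

theorem step_En (D : LyapData z q N) {w : ℂ} (hw : ‖w‖ ≤ 1) {h : ℕ → ℂ} (hh : Bdd h)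
    {A : ℝ} (H : En N h A) : En N (Iw w h) (A / ‖z‖ ^ 2) := by
  have hz : 0 < ‖z‖ ^ 2 := pow_pos D.z_pos 2
  intro ζ hζ
  constructor
  · rw [le_div_iff₀ hz, mul_comm]
    exact step_disc D hw hh H hζ
  · rw [le_div_iff₀ hz, mul_comm, cj_Iw]
    exact step_disc D (by rw [RCLike.norm_conj]; exact hw) (bdd_cj hh) H.cj hζ

end step


/-! ### Entire functions of small exponential type -/

/-- `n! e^n ≤ e n n^n`. -/
theorem fact_exp_le (n : ℕ) (hn : 1 ≤ n) :
    (Nat.factorial n : ℝ) * Real.exp n ≤ Real.exp 1 * n * (n : ℝ) ^ n := by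
  induction n, hn using Nat.le_induction with
  | base => simp
  | succ n hn ih =>
    have hn0 : (0 : ℝ) < n := by exact_mod_cast hn
    have hn1 : (0 : ℝ) < (n : ℝ) + 1 := by linarith
    have key : Real.exp 1 * (n : ℝ) ^ (n + 1) ≤ ((n : ℝ) + 1) ^ (n + 1) := by
      have h1 : (n : ℝ) / (n + 1) ≤ Real.exp (-(1 / ((n : ℝ) + 1))) := by
        have := Real.add_one_le_exp (-(1 / ((n : ℝ) + 1)))
        have h2 : -(1 / ((n : ℝ) + 1)) + 1 = (n : ℝ) / (n + 1) := by field_simp; ring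
        rwa [h2] at this
      have h3 : ((n : ℝ) / (n + 1)) ^ (n + 1) ≤ Real.exp (-1) := by
        calc ((n : ℝ) / (n + 1)) ^ (n + 1) ≤ (Real.exp (-(1 / ((n : ℝ) + 1)))) ^ (n + 1) := by
              gcongr
          _ = Real.exp (-1) := by
              rw [← Real.exp_nat_mul]
              congr 1
              push_cast
              field_simp
      rw [div_pow, div_le_iff₀ (by positivity), Real.exp_neg] at h3
      have h4 : Real.exp 1 * (n : ℝ) ^ (n + 1) ≤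
          Real.exp 1 * ((Real.exp 1)⁻¹ * ((n : ℝ) + 1) ^ (n + 1)) :=
        mul_le_mul_of_nonneg_left h3 (Real.exp_pos 1).le
      rwa [← mul_assoc, mul_inv_cancel₀ (Real.exp_pos 1).ne', one_mul] at h4
    calc ((Nat.factorial (n + 1) : ℕ) : ℝ) * Real.exp ((n + 1 : ℕ) : ℝ)
        = ((n : ℝ) + 1) * Real.exp 1 * ((Nat.factorial n : ℝ) * Real.exp n) := by
          rw [Nat.factorial_succ]
          push_cast
          rw [Real.exp_add]
          ring
      _ ≤ ((n : ℝ) + 1) * Real.exp 1 * (Real.exp 1 * n * (n : ℝ) ^ n) := by gcongr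
      _ = ((n : ℝ) + 1) * Real.exp 1 * (Real.exp 1 * (n : ℝ) ^ (n + 1)) := by ring
      _ ≤ ((n : ℝ) + 1) * Real.exp 1 * (((n : ℝ) + 1) ^ (n + 1)) := by gcongr
      _ = Real.exp 1 * ((n + 1 : ℕ) : ℝ) * (((n + 1 : ℕ) : ℝ)) ^ (n + 1) := by
          push_cast; ring

theorem deriv_bound {f : ℂ → ℂ} (hf : Differentiable ℂ f) {τ U C : ℝ} (hU : 0 < U) (hτ : τ < U)
    (hC : ∀ z : ℂ, ‖f z‖ ≤ C * Real.exp (τ * ‖z‖)) :
    ∃ r : ℝ, 0 < r ∧ r < U ∧ ∃ K : ℝ, 0 ≤ K ∧ ∀ n : ℕ, ‖iteratedDeriv n f 0‖ ≤ K * r ^ n := by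
  set t : ℝ := (max τ 0 + U) / 2 with ht
  have hmax : max τ 0 < U := max_lt hτ hU
  have hmax0 : 0 ≤ max τ 0 := le_max_right _ _
  have ht0 : 0 < t := by rw [ht]; linarith
  have htU : t < U := by rw [ht]; linarith
  have htτ : τ ≤ t := by rw [ht]; have := le_max_left τ 0; linarith
  set r : ℝ := (t + U) / 2 with hr
  have hr0 : 0 < r := by rw [hr]; linarith
  have hrU : r < U := by rw [hr]; linarith
  have htr : t < r := by rw [hr]; linarith
  have hC0 : 0 ≤ C := by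
    have h := (norm_nonneg _).trans (hC 0)
    simpa using h
  have hδ : 0 < r / t - 1 := by
    rw [sub_pos, one_lt_div ht0]; exact htr
  set K : ℝ := max ‖iteratedDeriv 0 f 0‖ (C * Real.exp 1 / (r / t - 1)) with hK
  refine ⟨r, hr0, hrU, K, (norm_nonneg _).trans (le_max_left _ _), fun n => ?_⟩
  rcases Nat.eq_zero_or_pos n with hn | hn
  · subst hn
    rw [pow_zero, mul_one]
    exact le_max_left _ _
  have hn0 : (0 : ℝ) < n := by exact_mod_cast hn
  set R : ℝ := n / t with hRdef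
  have hR : 0 < R := div_pos hn0 ht0
  have h1 : ‖iteratedDeriv n f 0‖ ≤ n.factorial * (C * Real.exp (n : ℝ)) / R ^ n := by
    refine Complex.norm_iteratedDeriv_le_of_forall_mem_sphere_norm_le n hR hf.diffContOnCl ?_
    intro z hz
    rw [mem_sphere_zero_iff_norm] at hz
    refine (hC z).trans ?_
    gcongr
    rw [hz]
    calc τ * R ≤ t * R := by gcongr
      _ = n := by rw [hRdef]; field_simp
  have h2 := fact_exp_le n hn
  have h3 : (n : ℝ) * (r / t - 1) ≤ (r / t) ^ n := by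
    have := one_add_mul_le_pow (a := r / t - 1) (by linarith) n
    have h4 : 1 + (r / t - 1) = r / t := by ring
    rw [h4] at this
    linarith
  calc ‖iteratedDeriv n f 0‖ ≤ n.factorial * (C * Real.exp (n : ℝ)) / R ^ n := h1
    _ = C * ((n.factorial : ℝ) * Real.exp (n : ℝ)) * t ^ n / (n : ℝ) ^ n := by
        rw [hRdef, div_pow]; field_simp
    _ ≤ C * (Real.exp 1 * n * (n : ℝ) ^ n) * t ^ n / (n : ℝ) ^ n := by gcongr
    _ = C * Real.exp 1 * n * t ^ n := by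
        field_simp
    _ = C * Real.exp 1 / (r / t - 1) * ((n : ℝ) * (r / t - 1)) * t ^ n := by
        have h5 : ∀ δ : ℝ, δ ≠ 0 → C * Real.exp 1 / δ * ((n : ℝ) * δ) = C * Real.exp 1 * n := by
          intro δ hδ'
          field_simp
        rw [h5 _ hδ.ne']
    _ ≤ C * Real.exp 1 / (r / t - 1) * (r / t) ^ n * t ^ n := by
        gcongr
    _ = C * Real.exp 1 / (r / t - 1) * r ^ n := by
        rw [div_pow, mul_assoc, div_mul_cancel₀]; positivity
    _ ≤ K * r ^ n := by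
        gcongr
        exact le_max_right _ _

section main

variable {z q : ℂ} {N : (ℕ → ℂ) → ℝ}

/-- Derivative data at `0`. -/
noncomputable def Hs (f : ℂ → ℂ) (n : ℕ) : ℕ → ℂ := fun k => iteratedDeriv (n + k) f 0

theorem differentiable_iteratedDeriv {f : ℂ → ℂ} (hf : Differentiable ℂ f) (n : ℕ) :
    Differentiable ℂ (iteratedDeriv n f) :=
  (hf.contDiff (n := n + 1)).differentiable_iteratedDeriv n (by exact_mod_cast Nat.lt_succ_self n)

theorem iteratedDeriv_add (f : ℂ → ℂ) (n k : ℕ) :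
    iteratedDeriv k (iteratedDeriv n f) = iteratedDeriv (n + k) f := by
  induction k with
  | zero => simp
  | succ k ih => rw [iteratedDeriv_succ, ih, ← add_assoc, iteratedDeriv_succ]

theorem Hs_eq {f : ℂ → ℂ} (hf : Differentiable ℂ f) (n : ℕ) {w : ℂ}
    (hw : iteratedDeriv n f w = 0) : Hs f n = Iw w (Hs f (n + 1)) := by
  funext k
  cases k with
  | succ k =>
    simp only [Hs, Iw]
    congr 1
    ring
  | zero =>
    simp only [Hs, Iw, add_zero]
    have h1 := Complex.hasSum_taylorSeries_of_entire (differentiable_iteratedDeriv hf n) 0 w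
    rw [hw] at h1
    have h2 := h1.summable.tsum_eq_zero_add
    rw [h1.tsum_eq] at h2
    simp only [Nat.factorial_zero, Nat.cast_one, inv_one, pow_zero, iteratedDeriv_zero,
      one_smul, sub_zero] at h2
    have h3 : ∑' j : ℕ, iteratedDeriv (n + 1 + j) f 0 * w ^ (j + 1) /
        (Nat.factorial (j + 1) : ℂ) = ∑' b : ℕ, ((b + 1).factorial : ℂ)⁻¹ •
          w ^ (b + 1) • iteratedDeriv (b + 1) (iteratedDeriv n f) 0 := by
      refine tsum_congr fun j => ?_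
      rw [iteratedDeriv_add, smul_eq_mul, smul_eq_mul]
      have e : n + 1 + j = n + (j + 1) := by ring
      rw [e]
      field_simp
    rw [eq_neg_iff_add_eq_zero, h3]
    exact h2.symm

theorem En_iter (D : LyapData z q N) {f : ℂ → ℂ} (hf : Differentiable ℂ f)
    (hz : ∀ n : ℕ, ∃ w : ℂ, ‖w‖ ≤ 1 ∧ iteratedDeriv n f w = 0)
    (hb : ∀ n, Bdd (Hs f n)) (m n : ℕ) : ∀ A : ℝ, En N (Hs f (m + n)) A →
    En N (Hs f m) (A / (‖z‖ ^ 2) ^ n) := by
  induction n with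
  | zero => intro A hA; simpa using hA
  | succ n ih =>
    intro A hA
    obtain ⟨w, hw, hw0⟩ := hz (m + n)
    have h1 : En N (Hs f (m + n)) (A / ‖z‖ ^ 2) := by
      rw [Hs_eq hf (m + n) hw0]
      exact step_En D hw (hb _) hA
    have h2 := ih _ h1
    rwa [div_div, ← pow_succ'] at h2

theorem zero_of_small_type (D : LyapData z q N) {f : ℂ → ℂ} (hf : Differentiable ℂ f)
    (hz : ∀ n : ℕ, ∃ w : ℂ, ‖w‖ ≤ 1 ∧ iteratedDeriv n f w = 0)
    {τ C : ℝ} (hτ : τ < ‖z‖) (hC : ∀ w : ℂ, ‖f w‖ ≤ C * Real.exp (τ * ‖w‖)) :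
    ∀ w : ℂ, f w = 0 := by
  obtain ⟨r, hr0, hrU, K, hK0, hK⟩ := deriv_bound hf D.z_pos hτ hC
  have hr1 : r ≤ 1 := (hrU.trans D.z_lt).le
  have hbound : ∀ n k : ℕ, ‖Hs f n k‖ ≤ K * r ^ n := by
    intro n k
    refine (hK (n + k)).trans ?_
    rw [pow_add]
    have : r ^ k ≤ 1 := pow_le_one₀ hr0.le hr1
    have h2 : r ^ n * r ^ k ≤ r ^ n * 1 := by gcongr
    rw [mul_one] at h2
    gcongr
  have hb : ∀ n, Bdd (Hs f n) := fun n => ⟨_, hbound n⟩
  obtain ⟨C₀, hC₀⟩ := D.upper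
  obtain ⟨c₀, hc₀, hlow⟩ := D.lower
  have hEn : ∀ n, En N (Hs f n) (C₀ * (K * r ^ n) ^ 2) := by
    intro n ζ hζ
    constructor
    · refine hC₀ _ _ fun k => ?_
      simp only [Rot, norm_mul, norm_pow, hζ, one_pow, one_mul]
      exact hbound n k
    · refine hC₀ _ _ fun k => ?_
      simp only [Rot, Cj, norm_mul, norm_pow, hζ, one_pow, one_mul, RCLike.norm_conj]
      exact hbound n k
  have hzero : ∀ m, iteratedDeriv m f 0 = 0 := by
    intro m
    have hrot : Rot 1 (Hs f m) = Hs f m := by funext k; simp [Rot]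
    have h1 : ∀ n, c₀ * ‖Hs f m 0‖ ^ 2 ≤ C₀ * (K * r ^ m) ^ 2 * ((r / ‖z‖) ^ 2) ^ n := by
      intro n
      have h2 := (En_iter D hf hz hb m n _ (hEn (m + n)) 1 (by simp)).1
      rw [hrot] at h2
      refine (hlow _ (hb m)).trans (h2.trans (le_of_eq ?_))
      have := D.z_pos
      rw [div_pow, div_pow, pow_add]
      field_simp
      ring
    have h3 : Tendsto (fun n : ℕ => C₀ * (K * r ^ m) ^ 2 * ((r / ‖z‖) ^ 2) ^ n) atTop
        (𝓝 (C₀ * (K * r ^ m) ^ 2 * 0)) := by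
      refine Tendsto.const_mul _ (tendsto_pow_atTop_nhds_zero_of_lt_one (by positivity) ?_)
      have h4 : r / ‖z‖ < 1 := (div_lt_one D.z_pos).2 hrU
      have h5 : 0 ≤ r / ‖z‖ := by positivity
      nlinarith
    rw [mul_zero] at h3
    have h6 : c₀ * ‖Hs f m 0‖ ^ 2 ≤ 0 := ge_of_tendsto' h3 h1
    have h7 : ‖Hs f m 0‖ ^ 2 ≤ 0 := by
      by_contra hcon
      have := mul_pos hc₀ (not_le.1 hcon)
      linarith
    have h8 : ‖Hs f m 0‖ = 0 := by
      have := sq_nonneg ‖Hs f m 0‖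
      exact pow_eq_zero_iff (two_ne_zero) |>.1 (le_antisymm h7 this)
    have h9 := norm_eq_zero.1 h8
    simpa [Hs] using h9
  intro w
  rw [← Complex.taylorSeries_eq_of_entire' 0 w hf]
  simp [hzero]

end main

/-! ### The function `phi` -/

theorem norm_term_le {q : ℂ} (hq : ‖q‖ ≤ 1) {y : ℂ} {R : ℝ} (hy : ‖y‖ ≤ R) (n : ℕ) :
    ‖q ^ (n * (n - 1) / 2) * y ^ n / (Nat.factorial n : ℂ)‖ ≤ R ^ n / (Nat.factorial n : ℝ) := by
  rw [norm_div, norm_mul, norm_pow, norm_pow, Complex.norm_natCast]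
  have h1 : ‖q‖ ^ (n * (n - 1) / 2) ≤ 1 := pow_le_one₀ (norm_nonneg _) hq
  have h2 : ‖y‖ ^ n ≤ R ^ n := by gcongr
  have h3 : ‖q‖ ^ (n * (n - 1) / 2) * ‖y‖ ^ n ≤ 1 * R ^ n := by gcongr
  rw [one_mul] at h3
  gcongr

theorem summable_term {q : ℂ} (hq : ‖q‖ ≤ 1) (y : ℂ) :
    Summable (fun n : ℕ => q ^ (n * (n - 1) / 2) * y ^ n / (Nat.factorial n : ℂ)) :=
  Summable.of_norm_bounded (Real.summable_pow_div_factorial ‖y‖)
    (fun n => norm_term_le hq le_rfl n)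

theorem phi_at_zero (q : ℂ) : phi q 0 = 1 := by
  unfold phi
  rw [tsum_eq_single 0]
  · simp
  · intro n hn
    simp [hn]

theorem norm_phi_le {q : ℂ} (hq : ‖q‖ ≤ 1) (y : ℂ) : ‖phi q y‖ ≤ Real.exp ‖y‖ := by
  have h1 : HasSum (fun n : ℕ => ‖y‖ ^ n / (Nat.factorial n : ℝ)) (Real.exp ‖y‖) := by
    rw [Real.exp_eq_exp_ℝ]
    exact NormedSpace.expSeries_div_hasSum_exp ‖y‖
  exact tsum_of_norm_bounded h1 (fun n => norm_term_le hq le_rfl n)

theorem hasDerivAt_phi {q : ℂ} (hq : ‖q‖ ≤ 1) (y : ℂ) :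
    HasDerivAt (phi q) (phi q (q * y)) y := by
  set R : ℝ := ‖y‖ + 1 with hR
  have hR0 : 0 ≤ R := by positivity
  set g : ℕ → ℂ → ℂ := fun n v => q ^ (n * (n - 1) / 2) * v ^ n / (Nat.factorial n : ℂ) with hg
  set g' : ℕ → ℂ → ℂ := fun n v =>
    q ^ (n * (n - 1) / 2) * (n * v ^ (n - 1)) / (Nat.factorial n : ℂ) with hg'
  set u : ℕ → ℝ := fun n => n * R ^ (n - 1) / (Nat.factorial n : ℝ) with hu
  have hu' : ∀ n : ℕ, u (n + 1) = R ^ n / (Nat.factorial n : ℝ) := by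
    intro n
    simp only [hu, Nat.factorial_succ, Nat.add_sub_cancel]
    push_cast
    field_simp
  have husum : Summable u := by
    rw [← summable_nat_add_iff 1]
    simp only [hu']
    exact Real.summable_pow_div_factorial R
  have hbd : ∀ n v, v ∈ ball (0 : ℂ) R → ‖g' n v‖ ≤ u n := by
    intro n v hv
    rw [mem_ball_zero_iff] at hv
    simp only [hg', hu]
    rw [norm_div, norm_mul, norm_mul, norm_pow, norm_pow, Complex.norm_natCast,
      Complex.norm_natCast]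
    have h1 : ‖q‖ ^ (n * (n - 1) / 2) ≤ 1 := pow_le_one₀ (norm_nonneg _) hq
    have h2 : ‖v‖ ^ (n - 1) ≤ R ^ (n - 1) := by gcongr
    have h3 : ‖q‖ ^ (n * (n - 1) / 2) * ((n : ℝ) * ‖v‖ ^ (n - 1)) ≤ 1 * ((n : ℝ) * R ^ (n - 1)) := by
      gcongr
    rw [one_mul] at h3
    gcongr
  have hy : y ∈ ball (0 : ℂ) R := by rw [mem_ball_zero_iff, hR]; linarith
  have hder : ∀ n v, v ∈ ball (0 : ℂ) R → HasDerivAt (g n) (g' n v) v := by
    intro n v _
    exact ((hasDerivAt_pow n v).const_mul _).div_const _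
  have h := hasDerivAt_tsum_of_isPreconnected husum isOpen_ball
    (convex_ball (0 : ℂ) R).isPreconnected hder hbd hy (summable_term hq y) hy
  have h2 : ∑' n, g' n y = phi q (q * y) := by
    have hs : Summable (fun n => g' n y) := Summable.of_norm_bounded husum (fun n => hbd n y hy)
    rw [hs.tsum_eq_zero_add]
    have h0 : g' 0 y = 0 := by simp [hg']
    rw [h0, zero_add]
    unfold phi
    refine tsum_congr fun n => ?_
    simp only [hg', Nat.factorial_succ]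
    rw [Nat.triangle_succ, pow_add, mul_pow]
    push_cast
    have : ((n : ℂ) + 1) ≠ 0 := by exact_mod_cast Nat.succ_ne_zero n
    field_simp
  rw [h2] at h
  exact h

theorem iteratedDeriv_phi {q : ℂ} (hq : ‖q‖ ≤ 1) (x : ℂ) (n : ℕ) :
    iteratedDeriv n (fun t => phi q (x * t)) =
      fun t => x ^ n * q ^ (n * (n - 1) / 2) * phi q (q ^ n * x * t) := by
  induction n with
  | zero => simp
  | succ n ih =>
    rw [iteratedDeriv_succ, ih]
    funext t
    have h1 : HasDerivAt (fun t => phi q (q ^ n * x * t)) (phi q (q * (q ^ n * x * t)) *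
        (q ^ n * x)) t := by
      have h2 : HasDerivAt (fun t => q ^ n * x * t) (q ^ n * x) t := by
        simpa using (hasDerivAt_id t).const_mul (q ^ n * x)
      exact (hasDerivAt_phi hq (q ^ n * x * t)).comp t h2
    rw [(h1.const_mul _).deriv, Nat.triangle_succ, pow_add]
    have e : q * (q ^ n * x * t) = q ^ (n + 1) * x * t := by ring
    rw [e]
    ring

theorem phi_class {q : ℂ} (hq : ‖q‖ = 1) {x : ℂ} (hx : phi q x = 0) :
    Differentiable ℂ (fun t => phi q (x * t)) ∧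
    (∀ n : ℕ, ∃ w : ℂ, ‖w‖ ≤ 1 ∧ iteratedDeriv n (fun t => phi q (x * t)) w = 0) ∧
    (∀ w : ℂ, ‖phi q (x * w)‖ ≤ 1 * Real.exp (‖x‖ * ‖w‖)) ∧
    phi q (x * 0) = 1 := by
  refine ⟨?_, ?_, ?_, ?_⟩
  · have h1 : Differentiable ℂ (phi q) := fun y => (hasDerivAt_phi hq.le y).differentiableAt
    exact h1.comp (differentiable_id.const_mul x)
  · intro n
    refine ⟨(q ^ n)⁻¹, by rw [norm_inv, norm_pow, hq, one_pow, inv_one], ?_⟩
    rw [iteratedDeriv_phi hq.le]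
    have hqn : q ^ n ≠ 0 := by
      intro h0
      have : ‖q ^ n‖ = 1 := by rw [norm_pow, hq, one_pow]
      rw [h0, norm_zero] at this
      exact zero_ne_one this
    have e : q ^ n * x * (q ^ n)⁻¹ = x := by field_simp
    simp only [e, hx, mul_zero]
  · intro w
    rw [one_mul, ← norm_mul]
    exact norm_phi_le hq.le _
  · rw [mul_zero, phi_at_zero]

theorem continuousOn_phi (R : ℝ) :
    ContinuousOn (fun p : ℂ × ℂ => phi p.1 p.2) (closedBall 0 1 ×ˢ closedBall 0 R) := by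
  unfold phi
  refine continuousOn_tsum (u := fun n => R ^ n / (Nat.factorial n : ℝ)) ?_
    (Real.summable_pow_div_factorial R) ?_
  · intro n
    fun_prop
  · rintro n ⟨q, y⟩ ⟨h1, h2⟩
    rw [mem_closedBall_zero_iff] at h1 h2
    exact norm_term_le h1 h2 n

theorem diffContOnCl_phi (x : ℂ) : DiffContOnCl ℂ (fun q => phi q x) (ball 0 1) := by
  constructor
  · refine Complex.differentiableOn_tsum_of_summable_norm
      (Real.summable_pow_div_factorial ‖x‖) ?_ isOpen_ball ?_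
    · intro n
      fun_prop
    · intro n w hw
      rw [mem_ball_zero_iff] at hw
      exact norm_term_le hw.le le_rfl n
  · rw [closure_ball (0 : ℂ) one_ne_zero]
    have h := continuousOn_phi ‖x‖
    refine h.comp (f := fun q : ℂ => (q, x)) (by fun_prop) ?_
    intro q hq
    exact ⟨hq, by simp⟩

section main2

variable {z q : ℂ} {N : (ℕ → ℂ) → ℝ}

theorem no_zero_unit (D : LyapData z q N) {p x : ℂ} (hp : ‖p‖ = 1) (hx : ‖x‖ < ‖z‖) :
    phi p x ≠ 0 := by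
  intro h0
  obtain ⟨h1, h2, h3, h4⟩ := phi_class hp h0
  have h5 := zero_of_small_type D h1 h2 hx h3 0
  rw [h4] at h5
  exact one_ne_zero h5

theorem no_zero_disc (D : LyapData z q N) {p₁ x₁ : ℂ} (hp : ‖p₁‖ ≤ 1) (hx : ‖x₁‖ < ‖z‖) :
    phi p₁ x₁ ≠ 0 := by
  intro h0
  -- a zero of minimal modulus
  set S : Set (ℂ × ℂ) := {p | p ∈ closedBall (0 : ℂ) 1 ×ˢ closedBall (0 : ℂ) ‖x₁‖ ∧
    phi p.1 p.2 = 0} with hS
  have hScompact : IsCompact S := by
    have hK : IsCompact (closedBall (0 : ℂ) 1 ×ˢ closedBall (0 : ℂ) ‖x₁‖) :=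
      (isCompact_closedBall _ _).prod (isCompact_closedBall _ _)
    have hcl := (continuousOn_phi ‖x₁‖).preimage_isClosed_of_isClosed hK.isClosed
      (isClosed_singleton (x := (0 : ℂ)))
    exact hK.of_isClosed_subset hcl (fun p hp => hp.1)
  have hSne : S.Nonempty := ⟨(p₁, x₁), ⟨by simpa using hp, by simp⟩, h0⟩
  obtain ⟨⟨p₀, x₀⟩, ⟨⟨hp₀, hx₀⟩, hz₀⟩, hmin⟩ :=
    hScompact.exists_isMinOn hSne (f := fun p : ℂ × ℂ => ‖p.2‖) (by fun_prop)
  simp only at hp₀ hx₀ hz₀ hmin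
  rw [mem_closedBall_zero_iff] at hp₀ hx₀
  have hx₀z : ‖x₀‖ < ‖z‖ := lt_of_le_of_lt hx₀ hx
  have hx₀0 : x₀ ≠ 0 := by
    intro h; rw [h, phi_at_zero] at hz₀; exact one_ne_zero hz₀
  have hx₀pos : 0 < ‖x₀‖ := norm_pos_iff.2 hx₀0
  -- lower bound on the unit circle
  set T : Set (ℂ × ℝ) := sphere (0 : ℂ) 1 ×ˢ Icc (0 : ℝ) 1 with hT
  have hTc : IsCompact T := (isCompact_sphere _ _).prod isCompact_Icc
  have hTne : T.Nonempty := ⟨(1, 0), by simp [hT]⟩
  have hcont : ContinuousOn (fun p : ℂ × ℝ => ‖phi p.1 ((p.2 : ℂ) * x₀)‖) T := by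
    refine ContinuousOn.norm ?_
    refine (continuousOn_phi ‖x₀‖).comp (f := fun p : ℂ × ℝ => (p.1, (p.2 : ℂ) * x₀))
      (by fun_prop) ?_
    rintro ⟨p, t⟩ ⟨h1, h2⟩
    simp only [mem_sphere_iff_norm, sub_zero, mem_Icc] at h1 h2
    refine ⟨by simp [h1], ?_⟩
    rw [mem_closedBall_zero_iff, norm_mul, Complex.norm_real, Real.norm_eq_abs,
      abs_of_nonneg h2.1]
    nlinarith [norm_nonneg x₀, h2.2]
  obtain ⟨⟨pm, tm⟩, hm, hmmin⟩ := hTc.exists_isMinOn hTne hcont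
  set m : ℝ := ‖phi pm ((tm : ℂ) * x₀)‖ with hmdef
  have hmpos : 0 < m := by
    rw [hmdef, norm_pos_iff]
    obtain ⟨h1, h2⟩ := hm
    simp only [mem_sphere_iff_norm, sub_zero, mem_Icc] at h1 h2
    refine no_zero_unit D h1 ?_
    rw [norm_mul, Complex.norm_real, Real.norm_eq_abs, abs_of_nonneg h2.1]
    nlinarith [norm_nonneg x₀, h2.2]
  have hcirc : ∀ p : ℂ, ‖p‖ = 1 → ∀ t : ℝ, 0 ≤ t → t ≤ 1 → m ≤ ‖phi p ((t : ℂ) * x₀)‖ := by
    intro p hp t ht0 ht1
    exact hmmin (show (p, t) ∈ T from ⟨by simpa using hp, ⟨ht0, ht1⟩⟩)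
  -- max modulus for `1 / phi`
  have hlow : ∀ t : ℝ, 0 ≤ t → t < 1 → m ≤ ‖phi p₀ ((t : ℂ) * x₀)‖ := by
    intro t ht0 ht1
    have hnorm : ‖(t : ℂ) * x₀‖ < ‖x₀‖ := by
      rw [norm_mul, Complex.norm_real, Real.norm_eq_abs, abs_of_nonneg ht0]
      nlinarith
    have hnz : ∀ p ∈ closure (ball (0 : ℂ) 1), phi p ((t : ℂ) * x₀) ≠ 0 := by
      intro p hp hzero
      rw [closure_ball (0 : ℂ) one_ne_zero] at hp
      have hmem : (p, (t : ℂ) * x₀) ∈ S := by
        refine ⟨⟨hp, ?_⟩, hzero⟩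
        rw [mem_closedBall_zero_iff]
        exact hnorm.le.trans hx₀
      have h9 : ‖x₀‖ ≤ ‖(t : ℂ) * x₀‖ := hmin hmem
      linarith
    have hd : DiffContOnCl ℂ (fun p => (phi p ((t : ℂ) * x₀))⁻¹) (ball 0 1) :=
      (diffContOnCl_phi _).inv hnz
    have hle := Complex.norm_le_of_forall_mem_frontier_norm_le (U := ball (0 : ℂ) 1)
      isBounded_ball hd (C := m⁻¹) ?_ (z := p₀) ?_
    · rw [norm_inv] at hle
      exact (inv_le_inv₀ (norm_pos_iff.2 (hnz p₀ (by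
        rw [closure_ball (0 : ℂ) one_ne_zero, mem_closedBall_zero_iff]; exact hp₀))) hmpos).1 hle
    · intro p hp
      rw [frontier_ball (0 : ℂ) one_ne_zero, mem_sphere_zero_iff_norm] at hp
      rw [norm_inv]
      exact inv_anti₀ hmpos (hcirc p hp t ht0 ht1.le)
    · rw [closure_ball (0 : ℂ) one_ne_zero, mem_closedBall_zero_iff]; exact hp₀
  -- let `t → 1`
  have hc1 : ContinuousOn (fun t : ℝ => ‖phi p₀ ((t : ℂ) * x₀)‖) (Icc 0 1) := by
    refine ContinuousOn.norm ?_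
    refine (continuousOn_phi ‖x₀‖).comp (f := fun t : ℝ => (p₀, (t : ℂ) * x₀))
      (by fun_prop) ?_
    intro t h2
    refine ⟨by simpa using hp₀, ?_⟩
    rw [mem_closedBall_zero_iff, norm_mul, Complex.norm_real, Real.norm_eq_abs,
      abs_of_nonneg h2.1]
    nlinarith [norm_nonneg x₀, h2.2]
  have hlim : Tendsto (fun t : ℝ => ‖phi p₀ ((t : ℂ) * x₀)‖) (𝓝[Ico 0 1] 1)
      (𝓝 ‖phi p₀ (((1 : ℝ) : ℂ) * x₀)‖) :=
    ((hc1 1 (by simp)).mono Ico_subset_Icc_self)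
  have hne : (𝓝[Ico (0 : ℝ) 1] 1).NeBot := by
    rw [← mem_closure_iff_nhdsWithin_neBot, closure_Ico (by norm_num)]
    simp
  have hfin := ge_of_tendsto hlim (b := m) (by
    filter_upwards [self_mem_nhdsWithin] with t ht
    exact hlow t ht.1 ht.2)
  rw [Complex.ofReal_one, one_mul, hz₀, norm_zero] at hfin
  linarith

/-- **Module B.** -/
theorem target_of_lyap_data (D : LyapData z q N) : Target := by
  intro B hB
  have hBz : B = ‖z‖ := by
    rw [hB]
    apply le_antisymm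
    · refine csInf_le ⟨0, ?_⟩ ⟨q, z, D.norm_q.le, rfl, D.phi_zero⟩
      rintro r ⟨_, y, _, hy, _⟩
      rw [← hy]; exact norm_nonneg _
    · refine le_csInf ⟨‖z‖, q, z, D.norm_q.le, rfl, D.phi_zero⟩ ?_
      rintro r ⟨p, y, hp, hy, h0⟩
      by_contra hcon
      rw [← hy] at hcon
      exact no_zero_disc D hp (not_le.1 hcon) h0
  constructor
  · intro c hc f hf hz hτ
    obtain ⟨τ, hτc, C, hC⟩ := hτ
    exact zero_of_small_type D hf hz (by rw [← hBz]; exact hτc.trans hc) hC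
  · intro c hc hall
    obtain ⟨h1, h2, h3, h4⟩ := phi_class D.norm_q D.phi_zero
    have h5 := hall _ h1 h2 ⟨‖z‖, by rw [← hBz]; exact hc, 1, h3⟩ 0
    rw [h4] at h5
    exact one_ne_zero h5

end main2

theorem target_of_lyap :
    (∃ (z q : ℂ) (N : (ℕ → ℂ) → ℝ), LyapData z q N) → Target := by
  rintro ⟨z, q, N, D⟩
  exact target_of_lyap_data D

end Pool.Agent.H76.W
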